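import Pool.Agent.H705.TR.Stm
import Pool.Graph.R_seed8.Helper601.Mertens

set_option autoImplicit false

/-! Lower bound for the probability that a level is rough. -/

namespace Pool.Agent.H580.TR

open Pool.Agent.H705.TR Finset

theorem un_eq (M : ℕ) (Q : ℕ → Prop) [DecidablePred Q] :
    un M Q = (((range M).filter Q).card : ℝ) / M := by
  unfold un
  congr!

theorem un_mono {M : ℕ} {P Q : ℕ → Prop} (h : ∀ y, P y → Q y) : un M P ≤ un M Q := by
  classical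
  rw [un_eq, un_eq]
  refine div_le_div_of_nonneg_right ?_ (Nat.cast_nonneg _)
  exact_mod_cast card_le_card fun y hy =>
    mem_filter.2 ⟨(mem_filter.1 hy).1, h y (mem_filter.1 hy).2⟩

/-- `1 - x ≥ exp (- x - x ^ 2)` -/
theorem one_sub_exp {x : ℝ} (h0 : 0 ≤ x) (h1 : x ≤ 1 / 2) : Real.exp (-(x + x ^ 2)) ≤ 1 - x := by
  have h2 : 0 < 1 - x := by linarith
  have h3 := Real.quadratic_le_exp_of_nonneg (show 0 ≤ x + x ^ 2 by positivity)
  rw [Real.exp_neg, inv_le_comm₀ (Real.exp_pos _) h2]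
  refine le_trans ?_ h3
  rw [inv_eq_one_div, div_le_iff₀ h2]
  have h4 : x + x ^ 2 + x ^ 3 ≤ 1 := by
    have e1 : x ^ 2 ≤ (1 / 2) ^ 2 := pow_le_pow_left₀ h0 h1 2
    have e2 : x ^ 3 ≤ (1 / 2) ^ 3 := pow_le_pow_left₀ h0 h1 3
    linarith
  have h5 : 0 ≤ x ^ 2 * (1 - (x + x ^ 2 + x ^ 3)) := mul_nonneg (by positivity) (by linarith)
  have e : (1 + (x + x ^ 2) + (x + x ^ 2) ^ 2 / 2) * (1 - x) =
      1 + x ^ 2 * (1 - (x + x ^ 2 + x ^ 3)) / 2 := by ring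
  rw [e]
  linarith

/-- the factors -/
theorem fac_le {l : ℕ} (hp : l.Prime) : (if l ≤ 6 then (1 / 3 : ℝ) else 1) *
    Real.exp (-(3 * (1 / (l : ℝ)) + 9 * (1 / (l : ℝ) ^ 2))) ≤
      (if l = 2 then (1 / 2 : ℝ) else if l = 3 then (1 / 3 : ℝ) else 1 - 3 / (l : ℝ)) := by
  have hl0 : (0 : ℝ) < l := by exact_mod_cast hp.pos
  have he : 0 ≤ 3 * (1 / (l : ℝ)) + 9 * (1 / (l : ℝ) ^ 2) := by positivity
  by_cases hl6 : l ≤ 6
  · rw [if_pos hl6]
    have h3 : Real.exp (-(3 * (1 / (l : ℝ)) + 9 * (1 / (l : ℝ) ^ 2))) ≤ 1 :=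
      Real.exp_le_one_iff.2 (by linarith)
    refine le_trans (mul_le_of_le_one_right (by norm_num) h3) ?_
    by_cases h2 : l = 2
    · rw [if_pos h2]
      norm_num
    · by_cases h3' : l = 3
      · rw [if_neg h2, if_pos h3']
      · rw [if_neg h2, if_neg h3']
        have h5 : l = 5 := by
          interval_cases l <;> first | rfl | (exfalso; exact h2 rfl) | (exfalso; exact h3' rfl) |
            (exfalso; revert hp; norm_num; done)
        rw [h5]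
        norm_num
  · rw [if_neg hl6, one_mul, if_neg (by omega), if_neg (by omega)]
    have h4 : (6 : ℝ) ≤ l := by
      have := not_le.1 hl6
      exact_mod_cast this.le
    have h5 : (3 : ℝ) / l ≤ 1 / 2 := by
      rw [div_le_iff₀ hl0]
      linarith
    have h6 := one_sub_exp (x := (3 : ℝ) / l) (by positivity) h5
    have e1 : 3 * (1 / (l : ℝ)) + 9 * (1 / (l : ℝ) ^ 2) = (3 : ℝ) / l + ((3 : ℝ) / l) ^ 2 := by
      rw [div_pow]
      ring
    rw [e1]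
    exact h6

theorem T_NT1 (hPRD : P_PRD) : P_NT1 := by
  obtain ⟨C, hC⟩ := Pool.Agent.Helper601.Mertens.mertens_inv
  have hs : Summable (fun n : ℕ => 1 / (n : ℝ) ^ 2) := Real.summable_one_div_nat_pow.2 (by norm_num)
  obtain ⟨K, hK⟩ : ∃ K : ℝ, K = ∑' n : ℕ, 1 / (n : ℝ) ^ 2 := ⟨_, rfl⟩
  refine ⟨(1 / 3) ^ 7 * Real.exp (-(3 * C + 9 * K)) / 2 ^ 3, by positivity,
    fun z c m hc hm => ?_⟩
  obtain ⟨S', hS'⟩ : ∃ S' : Finset ℕ, S' = (Icc 1 (2 * c)).filter Nat.Prime := ⟨_, rfl⟩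
  obtain ⟨S, hS⟩ : ∃ S : Finset ℕ, S = S'.filter (fun l => l ^ 2 ≤ c + 6) := ⟨_, rfl⟩
  have hSp : ∀ l ∈ S, l.Prime ∧ l ^ 2 ≤ c + 6 := by
    intro l hl
    rw [hS, hS'] at hl
    exact ⟨(mem_filter.1 (mem_filter.1 hl).1).2, (mem_filter.1 hl).2⟩
  have hSS : S ⊆ S' := by
    rw [hS]
    exact filter_subset _ _
  have hmem : ∀ l : ℕ, l.Prime → l ^ 2 ≤ c + 6 → l ∈ S := by
    intro l hl h2
    rw [hS, hS']
    refine mem_filter.2 ⟨mem_filter.2 ⟨mem_Icc.2 ⟨hl.one_lt.le, ?_⟩, hl⟩, h2⟩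
    by_contra h3
    have h4 : 2 * c + 1 ≤ l := by omega
    have h5 : (2 * c + 1) ^ 2 ≤ l ^ 2 := Nat.pow_le_pow_left h4 2
    nlinarith
  -- comparison of the events
  have h0 : un m (fun y => ∀ l ∈ S, ¬ (l ∣ y ∨ l ∣ y + 2 ∨ l ∣ y + 6)) ≤ un m (R z c) := by
    refine un_mono fun y hy => ?_
    intro p hp _ β hβ hpc hdvd
    have h1 : p ^ 2 ≤ c + 6 := by rcases hβ with rfl | rfl | rfl <;> omega
    refine hy p (hmem p hp h1) ?_
    rcases hβ with rfl | rfl | rfl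
    · exact Or.inl hdvd
    · exact Or.inr (Or.inl hdvd)
    · exact Or.inr (Or.inr hdvd)
  rw [hPRD m S hm.1 fun l hl => ⟨(hSp l hl).1, hm.2 l (hSp l hl).1 (hSp l hl).2⟩] at h0
  refine le_trans ?_ h0
  have h3 := prod_le_prod (s := S) (fun l _ => by
    have : (0 : ℝ) ≤ if l ≤ 6 then (1 / 3 : ℝ) else 1 := by split_ifs <;> norm_num
    exact mul_nonneg this (Real.exp_pos _).le) (fun l hl => fac_le (hSp l hl).1)
  refine le_trans ?_ h3
  rw [prod_mul_distrib, ← Real.exp_sum]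
  -- the small primes
  have h4 : (1 / 3 : ℝ) ^ 7 ≤ ∏ l ∈ S, (if l ≤ 6 then (1 / 3 : ℝ) else 1) := by
    rw [prod_ite, prod_const, prod_const_one, mul_one]
    refine pow_le_pow_of_le_one (by norm_num) (by norm_num) ?_
    have h5 : S.filter (fun l => l ≤ 6) ⊆ range 7 := by
      intro l hl
      have := (mem_filter.1 hl).2
      exact mem_range.2 (by omega)
    have h6 := card_le_card h5
    rwa [card_range] at h6
  -- the exponent
  have hb3 : 3 ≤ 2 * c := by omega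
  have hbr : (2 : ℝ) ≤ c := by exact_mod_cast hc
  have h5 : ∑ l ∈ S, (1 / (l : ℝ)) ≤ Real.log (Real.log ((2 * c : ℕ) : ℝ)) + C := by
    have e1 := (abs_le.1 (hC (2 * c) hb3)).2
    rw [← hS'] at e1
    have e2 : ∑ l ∈ S, (1 / (l : ℝ)) ≤ ∑ l ∈ S', (1 / (l : ℝ)) :=
      sum_le_sum_of_subset_of_nonneg hSS fun l _ _ => by positivity
    linarith
  have h6 : ∑ l ∈ S, (1 / (l : ℝ) ^ 2) ≤ K := by
    rw [hK]
    exact hs.sum_le_tsum S fun l _ => by positivity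
  have h7 : -(3 * (Real.log (Real.log ((2 * c : ℕ) : ℝ)) + C) + 9 * K) ≤
      ∑ l ∈ S, -(3 * (1 / (l : ℝ)) + 9 * (1 / (l : ℝ) ^ 2)) := by
    rw [sum_neg_distrib, sum_add_distrib, ← mul_sum, ← mul_sum]
    linarith
  have h8 := Real.exp_le_exp.2 h7
  have hlb : 0 < Real.log c := Real.log_pos (by linarith)
  have hl2b : Real.log ((2 * c : ℕ) : ℝ) ≤ 2 * Real.log c := by
    push_cast
    rw [Real.log_mul (by norm_num) (by linarith)]
    have := Real.log_le_log (by norm_num : (0 : ℝ) < 2) hbr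
    linarith
  have hl2b0 : 0 < Real.log ((2 * c : ℕ) : ℝ) := Real.log_pos (by push_cast; linarith)
  have h9 : Real.exp (-(3 * (Real.log (Real.log ((2 * c : ℕ) : ℝ)) + C) + 9 * K)) =
      Real.exp (-(3 * C + 9 * K)) / Real.log ((2 * c : ℕ) : ℝ) ^ 3 := by
    have e1 : -(3 * (Real.log (Real.log ((2 * c : ℕ) : ℝ)) + C) + 9 * K) =
        -(3 * C + 9 * K) - ((3 : ℕ) : ℝ) * Real.log (Real.log ((2 * c : ℕ) : ℝ)) := by
      push_cast
      ring
    rw [e1, Real.exp_sub, Real.exp_nat_mul, Real.exp_log hl2b0]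
  rw [h9] at h8
  have h10 : Real.exp (-(3 * C + 9 * K)) / (2 * Real.log c) ^ 3 ≤
      Real.exp (-(3 * C + 9 * K)) / Real.log ((2 * c : ℕ) : ℝ) ^ 3 :=
    div_le_div_of_nonneg_left (Real.exp_pos _).le (pow_pos hl2b0 _)
      (pow_le_pow_left₀ hl2b0.le hl2b 3)
  have h11 : (1 / 3) ^ 7 * Real.exp (-(3 * C + 9 * K)) / 2 ^ 3 / Real.log c ^ 3 =
      (1 / 3) ^ 7 * (Real.exp (-(3 * C + 9 * K)) / (2 * Real.log c) ^ 3) := by
    rw [mul_pow]
    field_simp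
  rw [h11]
  exact mul_le_mul h4 (h10.trans h8) (by positivity) ((pow_pos (by norm_num) _).le.trans h4)

end Pool.Agent.H580.TR
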